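import Pool.Agent.V11237.LP.Tri
import Pool.Agent.V11237.LP.IntPair
import Pool.Agent.V11237.LP.Window

set_option autoImplicit false

/-!
# `q = ⌊(n - p) / m⌋` PRIME, `p` and `q ^ 2 - 2` almost prime, for every admissible pair, uniformly in `m`

For every admissible pair `(m, n)`, `n` large, there are remainders `s < m` with `n - s` prime to `m` and
`n - s + m` odd; and for every such `s` the number of the PRIMES `q` in an interval `(u, u + Y]`,
`u + Y ≤ X`, `Y ≥ δ X`, `X ≥ n ^ θ`, for which `p = n - s - m q` and `q ^ 2 - 2` have no prime factor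
`≤ n ^ (1 / r)` is `(Y / log X) V / U` up to a factor `1 ± ε`; and the number of the `l` in `(q, q + T]`
for which `l`, `n - s - m l` and `l ^ 2 - 2` have no prime factor `≤ n ^ (1 / r)` is a Poisson variable of
mean `T V` over these primes `q`.
-/

namespace Pool.Agent.Results.MP_4011c3_nt.PrimeQuotientLaw

open Finset
open Pool.Agent.V11237.LP

/-- the pair `(m, n)` is admissible -/
def Admissible (m n : ℕ) : Prop :=
  2 * m + 1 < n ∧ ((m = 1 ∧ Even n) ∨ (m = 3 ∧ ¬ n ≡ 1 [MOD 6]) ∨ m = 2 ∨ 4 ≤ m)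

/-- `n - s` is prime to `m` and `n - s + m` is odd. -/
def Rem (m n s : ℕ) : Prop := (n - s).Coprime m ∧ Odd (n - s + m)

/-- None of `q`, `n - s - m q`, `q ^ 2 - 2` has a prime factor `p ≤ n ^ (1 / r)`. -/
def Good (m n s r q : ℕ) : Prop :=
  ∀ p : ℕ, p.Prime → (p : ℝ) ≤ (n : ℝ) ^ (1 / (r : ℝ)) →
    ¬ p ∣ q ∧ ¬ (p : ℤ) ∣ (n : ℤ) - s - m * q ∧ ¬ (p : ℤ) ∣ (q : ℤ) ^ 2 - 2

open Classical in
/-- The good PRIMES in `(u, u + Y]`. -/
noncomputable def P (m n s r u Y : ℕ) : Finset ℕ :=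
  (Ioc u (u + Y)).filter (fun q => q.Prime ∧ Good m n s r q)

open Classical in
/-- The number of the good `l` in `(q, q + T]`. -/
noncomputable def Next (m n s r T q : ℕ) : ℕ :=
  ((Ioc q (q + T)).filter (fun l => Good m n s r l)).card

open Classical in
/-- The product over the primes `p ≤ n ^ (1 / r)` of `1 - ν(p) / p`, `ν(p)` the number of the `q` modulo
`p` for which `p` divides `q`, `n - s - m q` or `q ^ 2 - 2`. -/
noncomputable def V (m n s r : ℕ) : ℝ :=
  ∏ p ∈ (Icc 1 ⌊(n : ℝ) ^ (1 / (r : ℝ))⌋₊).filter Nat.Prime,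
    (1 - (((range p).filter (fun q : ℕ => p ∣ q ∨ (p : ℤ) ∣ (n : ℤ) - s - m * q ∨
      (p : ℤ) ∣ (q : ℤ) ^ 2 - 2)).card : ℝ) / p)

/-- The product of `1 - 1 / p` over the primes `p ≤ n ^ (1 / r)`. -/
noncomputable def U (n r : ℕ) : ℝ :=
  ∏ p ∈ (Icc 1 ⌊(n : ℝ) ^ (1 / (r : ℝ))⌋₊).filter Nat.Prime, (1 - 1 / (p : ℝ))

lemma cop (N m k c : ℕ) (h : N + c = m * k ∨ N = m * k + c) (hc : Nat.Coprime c m) :
    Nat.Coprime N m := by
  by_contra hne
  obtain ⟨p, hp, hpN, hpm⟩ := Nat.Prime.not_coprime_iff_dvd.1 hne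
  have h1 : p ∣ m * k := Dvd.dvd.mul_right hpm k
  have h2 : p ∣ c := by
    rcases h with h | h
    · rw [← h] at h1
      exact (Nat.dvd_add_right hpN).1 h1
    · rw [h] at hpN
      exact (Nat.dvd_add_right h1).1 hpN
  exact (Nat.Prime.not_coprime_iff_dvd.2 ⟨p, hp, h2, hpm⟩) hc

/-- for every admissible pair there is a good remainder (from the hand-in `RestrictedDigits`) -/
lemma exists_rem {m n : ℕ} (hm : 1 ≤ m) (h : Admissible m n) : ∃ s, s < m ∧ Rem m n s := by
  obtain ⟨hn, hcase⟩ := h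
  unfold Rem
  have hdm := Nat.div_add_mod (n - 1) m
  have hlt := Nat.mod_lt (n - 1) (show 0 < m by omega)
  generalize hk : (n - 1) / m = k at *
  generalize ha : (n - 1) % m = a at *
  rcases Nat.even_or_odd m with hme | hmo
  · refine ⟨a, hlt, ?_, ?_⟩
    · exact cop (n - a) m k 1 (Or.inr (by omega)) (Nat.coprime_one_left m)
    · have h1 : n - a = m * k + 1 := by omega
      rw [h1]
      have h2 : Even (m * k) := hme.mul_right k
      obtain ⟨t, ht⟩ := h2
      obtain ⟨s, hs⟩ := hme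
      exact ⟨t + s, by omega⟩
  · have h2m : Nat.Coprime 2 m := Nat.coprime_two_left.2 hmo
    obtain ⟨s, hs⟩ := hmo
    rcases Nat.eq_zero_or_pos a with ha0 | ha0
    · rcases Nat.even_or_odd n with hne | hno
      · obtain ⟨t, ht⟩ := hne
        refine ⟨0, by omega, ?_, ⟨t + s, by omega⟩⟩
        rw [Nat.sub_zero]
        exact cop n m k 1 (Or.inr (by omega)) (Nat.coprime_one_left m)
      · obtain ⟨t, ht⟩ := hno
        have hm5 : 5 ≤ m := by
          rcases hcase with ⟨_, ⟨u, hu⟩⟩ | ⟨h3, h6⟩ | h2 | h4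
          · omega
          · exfalso
            apply h6
            unfold Nat.ModEq
            subst h3
            omega
          · omega
          · omega
        refine ⟨3, by omega, ?_, ⟨t + s - 1, by omega⟩⟩
        exact cop (n - 3) m k 2 (Or.inl (by omega)) h2m
    · rcases Nat.even_or_odd (n - a) with hne | hno
      · obtain ⟨t, ht⟩ := hne
        refine ⟨a, hlt, ?_, ⟨t + s, by omega⟩⟩
        exact cop (n - a) m k 1 (Or.inr (by omega)) (Nat.coprime_one_left m)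
      · obtain ⟨t, ht⟩ := hno
        refine ⟨a - 1, by omega, ?_, ⟨t + s + 1, by omega⟩⟩
        exact cop (n - (a - 1)) m k 2 (Or.inr (by omega)) h2m

open Pool.Agent.TH464.PW in
/-- the polynomial `x ^ 2 - 2` -/
noncomputable def F : Polynomial ℤ := quad 1 0 (-2)

lemma F_eval (x : ℤ) : F.eval x = x ^ 2 - 2 := by
  unfold F
  rw [Pool.Agent.TH464.PW.quad_eval]
  ring

lemma F_adm : PolyPair.Adm 2 ((2 : ℤ) : ℝ) F := by
  unfold F
  refine IntPair.adm_quad 1 0 (-2) one_ne_zero ?_ ?_ 2 (by norm_num) (by norm_num) (by norm_num) ?_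
  · rintro p hp ⟨h1, _, _⟩
    have := Int.le_of_dvd one_pos h1
    have := hp.two_le
    omega
  · rintro ⟨s, hs⟩
    norm_num at hs
    have h1 : s * s = 8 := hs.symm
    have h2 : s ≤ 2 := by nlinarith
    have h3 : -2 ≤ s := by nlinarith
    interval_cases s <;> omega
  · intro p hp
    refine ⟨1, ?_, ?_⟩
    · intro h
      exact hp.one_lt.ne' (Nat.dvd_one.1 h)
    · intro h
      norm_num at h
      have := Int.le_of_dvd one_pos h
      have := hp.two_le
      omega

lemma good_eq (m n s r q : ℕ) : Tri.Good (-(m : ℤ)) ((n : ℤ) - s) F n r q ↔ Good m n s r q := by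
  unfold Tri.Good Good
  refine forall_congr' fun p => forall_congr' fun _ => forall_congr' fun _ => ?_
  rw [F_eval, show -(m : ℤ) * q + ((n : ℤ) - s) = n - s - m * q by ring]

lemma V_eq (m n s r : ℕ) : Tri.V (-(m : ℤ)) ((n : ℤ) - s) F n r = V m n s r := by
  unfold Tri.V V
  simp only [F_eval, show ∀ q : ℕ, -(m : ℤ) * q + ((n : ℤ) - s) = n - s - m * q from fun q => by ring]

lemma adm {m n s : ℕ} (hm : 1 ≤ m) (hmn : 2 * m + 1 < n) (hs : s < m) (h : Rem m n s) (h4 : 4 ≤ n) :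
    Tri.Adm 2 ((n : ℝ) ^ (1 : ℝ)) ((n : ℝ) ^ (1 / 2 : ℝ)) (-(m : ℤ)) ((n : ℤ) - s) F := by
  obtain ⟨hc, hodd⟩ := h
  have hnr : (4 : ℝ) ≤ n := by exact_mod_cast h4
  have hcop : IsCoprime (-(m : ℤ)) ((n : ℤ) - s) := by
    have h1 : IsCoprime (m : ℤ) (((n - s : ℕ)) : ℤ) := Nat.isCoprime_iff_coprime.2 hc.symm
    rw [Nat.cast_sub (by omega)] at h1
    exact h1.neg_left
  rw [Real.rpow_one]
  refine ⟨by omega, hcop, ?_, ?_, ?_, F_adm.irr, F_adm.two, F_adm.deg, ?_, ?_⟩
  · rw [Int.cast_neg, abs_neg, Int.cast_natCast, abs_of_nonneg (Nat.cast_nonneg _)]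
    exact_mod_cast (by omega : m ≤ n)
  · have h1 : (((n : ℤ) - s : ℤ) : ℝ) = n - s := by push_cast; ring
    have h2 : (s : ℝ) ≤ n := by exact_mod_cast (by omega : s ≤ n)
    have h3 : (0 : ℝ) ≤ s := Nat.cast_nonneg s
    rw [h1, abs_of_nonneg (by linarith)]
    linarith
  · intro hm1
    rw [abs_neg, Nat.abs_cast] at hm1
    have hm1' : m = 1 := by exact_mod_cast hm1
    have hs0 : s = 0 := by omega
    subst hs0
    have h1 : (((n : ℤ) - ((0 : ℕ) : ℤ) : ℤ) : ℝ) = n := by push_cast; ring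
    rw [h1, abs_of_nonneg (by linarith)]
    calc (n : ℝ) ^ (1 / 2 : ℝ) < (n : ℝ) ^ (1 : ℝ) :=
          Real.rpow_lt_rpow_of_exponent_lt (by linarith) (by norm_num)
      _ = n := Real.rpow_one _
  · intro i
    have := F_adm.hgt i
    push_cast at this
    linarith
  · intro p hp
    have hpi : Prime (p : ℤ) := Nat.prime_iff_prime_int.1 hp
    have hF1 : ¬ (p : ℤ) ∣ F.eval ((1 : ℕ) : ℤ) := by
      rw [F_eval]
      norm_num
      intro hd
      exact hpi.not_isUnit (isUnit_of_dvd_one hd)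
    have h11 : ¬ p ∣ 1 := fun h => hp.one_lt.ne' (Nat.dvd_one.1 h)
    by_cases h1 : (p : ℤ) ∣ -(m : ℤ) * ((1 : ℕ) : ℤ) + ((n : ℤ) - s)
    · rcases hp.eq_two_or_odd with h2 | h2
      · exfalso
        subst h2
        obtain ⟨a, ha⟩ := h1
        obtain ⟨b, hb⟩ := hodd
        push_cast at ha
        have hb' : ((n - s : ℕ) : ℤ) + m = 2 * b + 1 := by exact_mod_cast hb
        rw [Nat.cast_sub (by omega)] at hb'
        omega
      · have hp3 : 3 ≤ p := by
          have := hp.two_le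
          omega
        refine ⟨2, fun h => by have := Nat.le_of_dvd two_pos h; omega, ?_, ?_⟩
        · intro h3
          have h4 : (p : ℤ) ∣ m := by
            have := dvd_sub h1 h3
            push_cast at this
            rwa [show -(m : ℤ) * 1 + ((n : ℤ) - s) - (-(m : ℤ) * 2 + (n - s)) = m by ring] at this
          have h5 : (p : ℤ) ∣ (n : ℤ) - s := by
            have := dvd_add h1 h4
            push_cast at this
            rwa [show -(m : ℤ) * 1 + ((n : ℤ) - s) + m = n - s by ring] at this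
          exact hpi.not_isUnit (hcop.isUnit_of_dvd' ((dvd_neg).2 h4) h5)
        · rw [F_eval]
          norm_num
          intro hd
          have := Int.le_of_dvd two_pos hd
          omega
    · exact ⟨1, h11, h1, hF1⟩

/-- **`q = ⌊(n - p) / m⌋` prime, `p` and `q ^ 2 - 2` almost prime, uniformly in the admissible pair.** -/
theorem result (θ δ : ℝ) (hθ : 0 < θ) (hδ : 0 < δ) (hδ1 : δ ≤ 1) (x₀ ε : ℝ) (hε : 0 < ε) (hε1 : ε ≤ 1) :
    ∃ r₀ : ℕ, 2 ≤ r₀ ∧ ∀ r : ℕ, r₀ ≤ r → ∃ n₀ : ℕ, ∀ n : ℕ, n₀ ≤ n → ∀ m : ℕ, 1 ≤ m →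
      Admissible m n →
      (∃ s < m, Rem m n s) ∧ ∀ s < m, Rem m n s →
      (∀ q : ℕ, 1 ≤ q → Good m n s r q → m * q + s < n → ∃ p : ℕ, p < n ∧ (n - p) / m = q ∧
        p = n - s - m * q ∧ p.primeFactorsList.length ≤ r ∧
        ((q : ℤ) ^ 2 - 2).natAbs.primeFactorsList.length ≤ 2 * r) ∧
      0 < V m n s r ∧
      ∀ X : ℕ, (n : ℝ) ^ θ ≤ X → ∀ u Y : ℕ, δ * X ≤ Y → u + Y ≤ X →
        |((P m n s r u Y).card : ℝ) * Real.log X - Y * (V m n s r / U n r)| ≤
          ε * (Y * (V m n s r / U n r)) ∧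
        ∀ T : ℕ, T * V m n s r ≤ x₀ → ∀ S : Finset ℕ,
        |(((P m n s r u Y).filter (fun q => Next m n s r T q ∈ S)).card : ℝ) -
          (P m n s r u Y).card *
            ∑ j ∈ S, Real.exp (-(T * V m n s r)) * (T * V m n s r) ^ j / j.factorial| ≤
          ε * (P m n s r u Y).card := by
  classical
  obtain ⟨r0, hr0, h0⟩ := Tri.law 2 1 (1 / 2) θ δ one_pos (by norm_num) hθ hδ hδ1 x₀ ε hε hε1
  refine ⟨r0, hr0, ?_⟩
  intro r hr
  have hr2 : 2 ≤ r := hr0.trans hr
  obtain ⟨N1, hN1⟩ := h0 r hr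
  obtain ⟨N2, hN2⟩ := Window.few 1 r hr2
  refine ⟨max (max N1 N2) 4, ?_⟩
  intro n hn m hm hadm
  have hn1 : N1 ≤ n := (le_max_left N1 N2).trans ((le_max_left _ _).trans hn)
  have hn2 : N2 ≤ n := (le_max_right N1 N2).trans ((le_max_left _ _).trans hn)
  have hn4 : 4 ≤ n := (le_max_right _ _).trans hn
  refine ⟨exists_rem hm hadm, ?_⟩
  intro s hs hrem
  have hA := adm hm hadm.1 hs hrem hn4
  obtain ⟨g1, g2⟩ := hN1 n hn1 _ _ _ hA
  rw [V_eq] at g1
  refine ⟨?_, g1, ?_⟩
  · intro q hq1 hg hq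
    have hmq : 1 ≤ m * q := Nat.one_le_iff_ne_zero.2 (Nat.mul_ne_zero (by omega) (by omega))
    obtain ⟨p, hp⟩ : ∃ p, p = n - s - m * q := ⟨_, rfl⟩
    have hpn : p + (m * q + s) = n := by omega
    refine ⟨p, by omega, ?_, hp, ?_, ?_⟩
    · have h1 : n - p = m * q + s := by omega
      rw [h1, Nat.mul_add_div (by omega), Nat.div_eq_of_lt hs, add_zero]
    · apply hN2 n hn2 p (by omega)
      intro l hl hlz hd
      apply (hg l hl hlz).2.1
      have : ((p : ℕ) : ℤ) = n - s - m * q := by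
        have h1 : ((p + (m * q + s) : ℕ) : ℤ) = n := by rw [hpn]
        push_cast at h1
        linarith
      rw [← this]
      exact_mod_cast hd
    · have hnr : (4 : ℝ) ≤ n := by exact_mod_cast hn4
      have hr0' : (0 : ℝ) < r := by exact_mod_cast (by omega : 0 < r)
      have hz1 : (1 : ℝ) < (n : ℝ) ^ (1 / (r : ℝ)) := Real.one_lt_rpow (by linarith) (by positivity)
      have hpow : ((n : ℝ) ^ (1 / (r : ℝ))) ^ r = n := by
        rw [← Real.rpow_natCast, ← Real.rpow_mul (by linarith), one_div, inv_mul_cancel₀ hr0'.ne',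
          Real.rpow_one]
      rcases eq_or_ne ((q : ℤ) ^ 2 - 2) 0 with h0 | h0
      · rw [h0]
        simp
      · apply Pool.Agent.Y879.GL.few_of_rough _ hz1 _ (2 * r) (by rwa [Ne, Int.natAbs_eq_zero])
        · rw [mul_comm 2 r, pow_mul, hpow]
          have hqn : (q : ℝ) ≤ n := by
            have h1 : q ≤ m * q := Nat.le_mul_of_pos_left q hm
            exact_mod_cast (by omega : q ≤ n)
          have hq0 : (0 : ℝ) ≤ q := Nat.cast_nonneg q
          have h1 : ((((q : ℤ) ^ 2 - 2).natAbs : ℕ) : ℝ) = |(q : ℝ) ^ 2 - 2| := by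
            rw [Nat.cast_natAbs]
            push_cast
            rfl
          rw [h1, abs_le]
          constructor
          · nlinarith
          · nlinarith
        · intro l hl hld
          by_contra hcon
          rw [not_lt] at hcon
          exact (hg l hl hcon).2.2 (Int.natCast_dvd.2 hld)
  · intro X hX u Y hY huY
    obtain ⟨g3, g4⟩ := g2 X hX u Y hY huY
    have hP : Tri.P (-(m : ℤ)) ((n : ℤ) - s) F n r u Y = P m n s r u Y := by
      unfold Tri.P P
      simp only [good_eq]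
    have hW : ∀ T q, Tri.Next (-(m : ℤ)) ((n : ℤ) - s) F n r T q = Next m n s r T q := by
      intro T q
      unfold Tri.Next Next
      simp only [good_eq]
    have hU : Tri.U n r = U n r := rfl
    rw [hP, V_eq, hU] at g3
    refine ⟨g3, ?_⟩
    intro T hT S
    have g5 := g4 T (by rw [V_eq]; exact hT) S
    rw [hP, V_eq] at g5
    simp only [hW] at g5
    exact g5

end Pool.Agent.Results.MP_4011c3_nt.PrimeQuotientLaw
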