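import Pool.Agent.V11249.NP.Fam
import Pool.Agent.V11249.NP.UniG

/-!
# Progressions of primes `q = ⌊(n - p) / m⌋` with `p` and `q ^ 2 - 2` prime, uniformly in `m` and `n`

The primes `p` with `⌊(n - p) / m⌋ = q` and `n - p ≡ r` modulo `m` are `p = n - r - m q`. For all `m`, `n`, `r` with
`gcd(m, n - r) = 1` and `m (n - r)` even and all windows `(A, A + N]`: the set of the `q` in the window for which `q`,
`q ^ 2 - 2` and `n - r - m q` are prime has the expected order of magnitude `N V` if and only if the number of its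
`k`-term arithmetic progressions with differences up to `D` has the expected order of magnitude `N D V ^ k`, for all
`D` between a power of `log N` and `N`. The constants depend only on `k`.
-/

set_option autoImplicit false

open Finset

namespace Pool.Agent.Results.MP_4011c3_nt.ProgressionsOfRepresentations

/-- the prime factors occurring for `q`, `q ^ 2 - 2` and `s - m q` (`s = n - r`) -/
def Div (m s p q : ℕ) : Prop := (p : ℤ) ∣ (q : ℤ) * ((s : ℤ) - m * q) * ((q : ℤ) ^ 2 - 2)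

open Classical in
/-- the number of the `q` modulo `p` such that `p` divides `q (s - m q) (q ^ 2 - 2)` -/
noncomputable def omega (m s p : ℕ) : ℕ := ((range p).filter (fun q : ℕ => Div m s p q)).card

/-- the sieve product over the primes `p ≤ N ^ κ` -/
noncomputable def V (m s : ℕ) (κ : ℝ) (N : ℕ) : ℝ :=
  ∏ p ∈ (Icc 1 ⌊(N : ℝ) ^ κ⌋₊).filter Nat.Prime, (1 - (omega m s p : ℝ) / p)

open Classical in
/-- the `q` in `(A, A + N]` such that `q` and `q ^ 2 - 2` are prime and `q = ⌊(n - p) / m⌋` for a prime `p ≤ n` with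
`n - p ≡ r` modulo `m` -/
noncomputable def R (m n r A N : ℕ) : Finset ℕ :=
  (Ioc A (A + N)).filter (fun q => q.Prime ∧ (q ^ 2 - 2).Prime ∧
    ∃ p : ℕ, p.Prime ∧ p ≤ n ∧ (n - p) / m = q ∧ (n - p) % m = r)

/-- all prime factors of `q`, `s - m q` and `q ^ 2 - 2` are larger than `N ^ κ` -/
def Rough (m s : ℕ) (κ : ℝ) (N q : ℕ) : Prop := ∀ p : ℕ, p.Prime → Div m s p q → (N : ℝ) ^ κ < p

open Classical in
/-- The number of the progressions `q, q + e, …, q + (k - 1) e` in `S` with `1 ≤ e ≤ D`. -/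
noncomputable def AP (k D : ℕ) (S : Finset ℕ) : ℕ :=
  ((S ×ˢ Icc 1 D).filter (fun q => ∀ j < k, q.1 + j * q.2 ∈ S)).card

open Pool.Agent.TH464.PW (quad quad_eval quad_deg)

/-- the polynomials -/
noncomputable def F (m s : ℕ) : Fin 3 → Polynomial ℤ := ![quad 0 1 0, quad 0 (-m) s, quad 1 0 (-2)]

theorem ev0 (m s : ℕ) (x : ℤ) : (F m s 0).eval x = x := by
  show (quad 0 1 0).eval x = x
  rw [quad_eval]
  ring

theorem ev1 (m s : ℕ) (x : ℤ) : (F m s 1).eval x = s - m * x := by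
  show (quad 0 (-m) s).eval x = _
  rw [quad_eval]
  ring

theorem ev2 (m s : ℕ) (x : ℤ) : (F m s 2).eval x = x ^ 2 - 2 := by
  show (quad 1 0 (-2)).eval x = _
  rw [quad_eval]
  ring

theorem lin_deg (a b : ℤ) (ha : a ≠ 0) : (quad 0 a b).natDegree = 1 := by
  have e : quad 0 a b = Polynomial.C a * Polynomial.X + Polynomial.C b := by
    unfold quad
    simp
  rw [e]
  exact Polynomial.natDegree_linear ha

theorem fa3 {p : Fin 3 → Prop} : (∀ i, p i) ↔ p 0 ∧ p 1 ∧ p 2 := by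
  constructor
  · intro h
    exact ⟨h 0, h 1, h 2⟩
  · rintro ⟨h0, h1, h2⟩ i
    fin_cases i
    · exact h0
    · exact h1
    · exact h2

theorem ex3 {p : Fin 3 → Prop} : (∃ i, p i) ↔ p 0 ∨ p 1 ∨ p 2 := by
  constructor
  · rintro ⟨i, hi⟩
    fin_cases i
    · exact Or.inl hi
    · exact Or.inr (Or.inl hi)
    · exact Or.inr (Or.inr hi)
  · rintro (h | h | h)
    · exact ⟨0, h⟩
    · exact ⟨1, h⟩
    · exact ⟨2, h⟩

theorem us {m s : ℕ} (hm : 1 ≤ m) (hg : Nat.gcd m s = 1) (he : Even (m * s)) :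
    Pool.Agent.V11249.NP.UniG.US 2 (F m s) := by
  refine ⟨?_, fun p hp => ?_⟩
  · rw [fa3]
    have h0 : (F m s 0).natDegree = 1 := lin_deg 1 0 (by norm_num)
    have h1 : (F m s 1).natDegree = 1 := lin_deg (-m) s (by
      have : (m : ℤ) ≠ 0 := by exact_mod_cast (by omega : m ≠ 0)
      exact neg_ne_zero.2 this)
    have h2 : (F m s 2).natDegree = 2 := quad_deg _ _ _ (by norm_num)
    omega
  · have key : ∀ q : ℕ, ¬ (p : ℤ) ∣ (q : ℤ) → ¬ (p : ℤ) ∣ (s : ℤ) - m * q → ¬ (p : ℤ) ∣ (q : ℤ) ^ 2 - 2 →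
        ∃ q : ℕ, ∀ i, ¬ (p : ℤ) ∣ (F m s i).eval (q : ℤ) := by
      intro q h0 h1 h2
      refine ⟨q, ?_⟩
      rw [fa3, ev0, ev1, ev2]
      exact ⟨h0, h1, h2⟩
    have hp2 := hp.two_le
    have hnd : ∀ q : ℕ, 1 ≤ q → q < p → ¬ (p : ℤ) ∣ (q : ℤ) := by
      intro q h1 h2 hd
      exact absurd (Nat.le_of_dvd h1 (Int.natCast_dvd_natCast.1 hd)) (by omega)
    have h1 := hnd 1 le_rfl (by omega)
    by_cases hs : (p : ℤ) ∣ (s : ℤ) - m * (1 : ℕ)
    swap
    · refine key 1 h1 hs ?_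
      intro h
      apply h1
      have e : ((1 : ℕ) : ℤ) ^ 2 - 2 = -((1 : ℕ) : ℤ) := by norm_num
      rw [e] at h
      exact (dvd_neg).1 h
    have hp3 : 3 ≤ p := by
      by_contra hcon
      have hpe : p = 2 := by omega
      subst hpe
      have hs' : (2 : ℤ) ∣ (s : ℤ) - m := by
        have := hs
        push_cast at this
        simpa using this
      rcases Nat.even_mul.1 he with h | h
      · have h5 : 2 ∣ m := h.two_dvd
        have h6 : 2 ∣ s := by omega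
        have := Nat.dvd_gcd h5 h6
        rw [hg] at this
        omega
      · have h5 : 2 ∣ s := h.two_dvd
        have h6 : 2 ∣ m := by omega
        have := Nat.dvd_gcd h6 h5
        rw [hg] at this
        omega
    have h2 := hnd 2 (by norm_num) (by omega)
    refine key 2 h2 ?_ ?_
    · intro h
      have h3 : (p : ℤ) ∣ (m : ℤ) := by
        have := dvd_sub hs h
        have e : (s : ℤ) - m * (1 : ℕ) - ((s : ℤ) - m * (2 : ℕ)) = m := by
          push_cast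
          ring
        rwa [e] at this
      have h4 : (p : ℤ) ∣ (s : ℤ) := by
        have := dvd_add hs (h3.mul_right ((1 : ℕ) : ℤ))
        rwa [sub_add_cancel] at this
      have h5 := Nat.dvd_gcd (Int.natCast_dvd_natCast.1 h3) (Int.natCast_dvd_natCast.1 h4)
      rw [hg] at h5
      have := Nat.le_of_dvd (by norm_num) h5
      omega
    · intro h
      apply h2
      have e : ((2 : ℕ) : ℤ) ^ 2 - 2 = ((2 : ℕ) : ℤ) := by norm_num
      rwa [e] at h

/-- the description by three prime values -/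
theorem R_iff {m n r A N q : ℕ} (_hm : 1 ≤ m) (hr : r < m) (hw : r + m * (A + N) ≤ n) (h2 : 2 ≤ A) :
    q ∈ R m n r A N ↔ (A < q ∧ q ≤ A + N) ∧ ∀ i, ((F m (n - r) i).eval (q : ℤ)).natAbs.Prime := by
  classical
  unfold R
  rw [mem_filter, mem_Ioc, fa3, ev0, ev1, ev2]
  refine and_congr_right ?_
  rintro ⟨hA, hN⟩
  have hq : m * q ≤ m * (A + N) := Nat.mul_le_mul_left m hN
  have e1 : (((n - r : ℕ) : ℤ) - (m : ℤ) * (q : ℤ)).natAbs = n - r - m * q := by
    have : (((n - r : ℕ) : ℤ) - (m : ℤ) * (q : ℤ)) = ((n - r - m * q : ℕ) : ℤ) := by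
      rw [Nat.cast_sub (by omega : m * q ≤ n - r)]
      push_cast
      ring
    rw [this, Int.natAbs_natCast]
  have e2 : ((q : ℤ) ^ 2 - 2).natAbs = q ^ 2 - 2 := by
    have h4 : 2 ≤ q ^ 2 := by nlinarith
    have : ((q : ℤ) ^ 2 - 2) = ((q ^ 2 - 2 : ℕ) : ℤ) := by
      rw [Nat.cast_sub h4]
      push_cast
      ring
    rw [this, Int.natAbs_natCast]
  rw [e1, e2, Int.natAbs_natCast]
  constructor
  · rintro ⟨h3, h4, p, hp, hpn, hd, hmod⟩
    refine ⟨h3, ?_, h4⟩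
    have h5 := Nat.div_add_mod (n - p) m
    rw [hd, hmod] at h5
    have : n - r - m * q = p := by omega
    rwa [this]
  · rintro ⟨h3, h4, h5⟩
    refine ⟨h3, h5, n - r - m * q, h4, by omega, ?_, ?_⟩
    · have e : n - (n - r - m * q) = r + m * q := by omega
      rw [e, Nat.add_mul_div_left _ _ (by omega), Nat.div_eq_of_lt hr, zero_add]
    · have e : n - (n - r - m * q) = r + m * q := by omega
      rw [e, Nat.add_mul_mod_self_left, Nat.mod_eq_of_lt hr]

/-- For every `k ≥ 1`, with constants which do not depend on `m`, `n`, `r`, `A` (`gcd(m, n - r) = 1`, `m (n - r)` even):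
(1) for `κ > 0` a set `S` of integers `q` of `(A, A + N]` at which `q`, `q ^ 2 - 2` and `n - r - m q` have no prime
factor `≤ N ^ κ` contains at most `C N D V ^ k` progressions of length `k` with differences at most `D`;
(2) it contains at least `c₀ N D V ^ k` of them if it has at least `δ N V` elements, and it has at least
`c₀ N V` elements if it contains at least `δ N D V ^ k` of them, for all `D` between `log ^ B N` and `N`;
(3), (4) the same for the set `R m n r A N`, in windows with `r + m (A + N) ≤ n` (with `κ = 1/4` in `V`). -/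
theorem result (k : ℕ) (hk : 1 ≤ k) :
    (∀ κ : ℝ, 0 < κ → ∃ C : ℝ, 0 < C ∧ ∃ B N₀ : ℕ, ∀ m n r : ℕ, r < m → r ≤ n → Nat.gcd m (n - r) = 1 →
      Even (m * (n - r)) → ∀ N A D : ℕ, N₀ ≤ N → Real.log N ^ B ≤ D → ∀ S : Finset ℕ, S ⊆ Ioc A (A + N) →
        (∀ q ∈ S, Rough m (n - r) κ N q) → (AP k D S : ℝ) ≤ C * (N * D * V m (n - r) κ N ^ k)) ∧
    (∀ κ δ : ℝ, 0 < κ → 0 < δ → ∃ c₀ : ℝ, 0 < c₀ ∧ ∃ B N₀ : ℕ, ∀ m n r : ℕ, r < m → r ≤ n →
      Nat.gcd m (n - r) = 1 → Even (m * (n - r)) → ∀ N A D : ℕ, N₀ ≤ N → Real.log N ^ B ≤ D → D ≤ N →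
      ∀ S : Finset ℕ, S ⊆ Ioc A (A + N) → (∀ q ∈ S, Rough m (n - r) κ N q) →
        (δ * (N * V m (n - r) κ N) ≤ S.card → c₀ * (N * D * V m (n - r) κ N ^ k) ≤ AP k D S) ∧
        (δ * (N * D * V m (n - r) κ N ^ k) ≤ AP k D S → c₀ * (N * V m (n - r) κ N) ≤ S.card)) ∧
    (∃ C : ℝ, 0 < C ∧ ∃ B N₀ : ℕ, ∀ m n r : ℕ, r < m → Nat.gcd m (n - r) = 1 → Even (m * (n - r)) →
      ∀ N A D : ℕ, 2 ≤ A → r + m * (A + N) ≤ n → N₀ ≤ N → Real.log N ^ B ≤ D →
      (AP k D (R m n r A N) : ℝ) ≤ C * (N * D * V m (n - r) (1 / 4) N ^ k)) ∧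
    (∀ δ : ℝ, 0 < δ → ∃ c₀ : ℝ, 0 < c₀ ∧ ∃ B N₀ : ℕ, ∀ m n r : ℕ, r < m → Nat.gcd m (n - r) = 1 →
      Even (m * (n - r)) → ∀ N A D : ℕ, 2 ≤ A → r + m * (A + N) ≤ n → N₀ ≤ N → Real.log N ^ B ≤ D → D ≤ N →
      (δ * (N * V m (n - r) (1 / 4) N) ≤ (R m n r A N).card →
        c₀ * (N * D * V m (n - r) (1 / 4) N ^ k) ≤ AP k D (R m n r A N)) ∧
      (δ * (N * D * V m (n - r) (1 / 4) N ^ k) ≤ AP k D (R m n r A N) →
        c₀ * (N * V m (n - r) (1 / 4) N) ≤ (R m n r A N).card)) := by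
  classical
  obtain ⟨a1, a2, a3, a4⟩ := Pool.Agent.V11249.NP.UniG.transfer 3 2
    (Θ := ℕ × ℕ) (fun θ => F θ.1 θ.2)
    (fun θ => 1 ≤ θ.1 ∧ Nat.gcd θ.1 θ.2 = 1 ∧ Even (θ.1 * θ.2)) (fun θ h => us h.1 h.2.1 h.2.2)
    (fun θ κ N x => Rough θ.1 θ.2 κ N x)
    (fun θ A N => (Ioc A (A + N)).filter (fun q : ℕ => ∀ i, ((F θ.1 θ.2 i).eval (q : ℤ)).natAbs.Prime))
    (fun θ κ N => V θ.1 θ.2 κ N)
    (by
      intro θ _ κ N x h i p hp hd
      refine h p hp ?_
      unfold Div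
      fin_cases i
      · have hd' : (p : ℤ) ∣ (F θ.1 θ.2 0).eval (x : ℤ) := hd
        rw [ev0] at hd'
        exact (hd'.mul_right _).mul_right _
      · have hd' : (p : ℤ) ∣ (F θ.1 θ.2 1).eval (x : ℤ) := hd
        rw [ev1] at hd'
        exact (hd'.mul_left _).mul_right _
      · have hd' : (p : ℤ) ∣ (F θ.1 θ.2 2).eval (x : ℤ) := hd
        rw [ev2] at hd'
        exact hd'.mul_left _)
    (by
      intro θ _ A N x
      rw [mem_filter, mem_Ioc])
    (by
      intro θ _ κ N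
      refine Pool.Agent.V11249.NP.UniG.V_eq _ κ N _ (fun p hp => ?_)
      unfold omega
      congr 1
      ext x
      rw [Pool.Agent.V11249.NP.UniG.mem_ZZ, mem_filter, mem_range, ex3, ev0, ev1, ev2]
      refine and_congr_right fun _ => ?_
      have hpp := Nat.prime_iff_prime_int.1 hp
      unfold Div
      rw [hpp.dvd_mul, hpp.dvd_mul, or_assoc])
    k hk
  have eR : ∀ m n r A N : ℕ, r < m → r + m * (A + N) ≤ n → 2 ≤ A → R m n r A N =
      (Ioc A (A + N)).filter (fun q : ℕ => ∀ i, ((F m (n - r) i).eval (q : ℤ)).natAbs.Prime) := by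
    intro m n r A N hr hw hA
    ext q
    rw [R_iff (by omega) hr hw hA, mem_filter, mem_Ioc]
  refine ⟨?_, ?_, ?_, ?_⟩
  · intro κ hκ
    obtain ⟨C, hC, B, N₀, h⟩ := a1 κ hκ
    exact ⟨C, hC, B, N₀, fun m n r hr _ hg he N A D hN hD S hS hR =>
      h (m, n - r) ⟨by show 1 ≤ m; omega, hg, he⟩ N A D hN hD S hS hR⟩
  · intro κ δ hκ hδ
    obtain ⟨c₀, hc, B, N₀, h⟩ := a2 κ δ hκ hδ
    exact ⟨c₀, hc, B, N₀, fun m n r hr _ hg he N A D hN hD hDN S hS hR =>
      h (m, n - r) ⟨by show 1 ≤ m; omega, hg, he⟩ N A D hN hD hDN S hS hR⟩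
  · obtain ⟨C, hC, B, N₀, h⟩ := a3
    refine ⟨C, hC, B, N₀, fun m n r hr hg he N A D hA hw hN hD => ?_⟩
    rw [eR m n r A N hr hw hA]
    exact h (m, n - r) ⟨by show 1 ≤ m; omega, hg, he⟩ N A D hN hD
  · intro δ hδ
    obtain ⟨c₀, hc, B, N₀, h⟩ := a4 δ hδ
    refine ⟨c₀, hc, B, N₀, fun m n r hr hg he N A D hA hw hN hD hDN => ?_⟩
    rw [eR m n r A N hr hw hA]
    exact h (m, n - r) ⟨by show 1 ≤ m; omega, hg, he⟩ N A D hN hD hDN

end Pool.Agent.Results.MP_4011c3_nt.ProgressionsOfRepresentations
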