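import Pool.Agent.H225.LF2
import Pool.Agent.V1153.SX.Poly

/-!
# `q = ⌊(n - p) / m⌋`, `q ^ 2 - 2` and `p` almost prime, for every admissible pair, `q` with restricted digits

Let `b ≥ 2` be a base.  Write `q = M + t` with an arbitrary base point `M` and let the digits of
`t < b^K` be restricted: the `i`-th digit belongs to a set `A i`, where the sets `A i` are arbitrary,
depend on the place `i < K`, and have the only property that the number `∏ |A i|` of these `q` is at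
least `e^{-δK} b^K`, where the constant `δ > 0` does not depend on `b`.

Let `(m, n)` be ANY admissible pair with `m (M + b^K) + b^K + m ≤ n ≤ b^{EK}`.  Then there is `s < m` such
that `n - s` is prime to `m` and `n - s + m` is odd; and for every such `s`, with `p = n - s - m q`, so that
`q = ⌊(n - p) / m⌋`: the sieve product `V` of `q (q^2 - 2) p` is at least `κ / K^4`; for at most
`C V ∏ |A i|` of these `q` the numbers `p`, `q`, `q^2 - 2` are primes; and (if the last digit can be chosen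
such that the three numbers are prime to `b`) for at least `κ V ∏ |A i|` of these `q` all three numbers
have at most `r` prime factors, all larger than `b^{K/r}`.  The constants do not depend on `m` and `n`.
-/

set_option autoImplicit false

namespace Pool.Agent.Results.MP_4011c3_nt.RestrictedDigits

open Finset Filter

/-- the pair `(m, n)` is admissible -/
def Admissible (m n : ℕ) : Prop :=
  2 * m + 1 < n ∧ ((m = 1 ∧ Even n) ∨ (m = 3 ∧ ¬ n ≡ 1 [MOD 6]) ∨ m = 2 ∨ 4 ≤ m)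

/-- `n - s` is prime to `m` and `n - s + m` is odd. -/
def Good (m n s : ℕ) : Prop := (n - s).Coprime m ∧ Odd (n - s + m)

open Classical in
/-- The number of the `q` modulo `p` for which `p` divides `q (q ^ 2 - 2) (N - m q)`. -/
noncomputable def nu (m N p : ℕ) : ℕ :=
  ((range p).filter (fun q : ℕ => (p : ℤ) ∣ (q : ℤ) * ((q : ℤ) ^ 2 - 2) * ((N : ℤ) - m * q))).card

/-- The product of `1 - nu p / p` over the primes `p ≤ x`. -/
noncomputable def V (m N x : ℕ) : ℝ :=
  ∏ p ∈ (Icc 1 x).filter Nat.Prime, (1 - (nu m N p : ℝ) / p)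

open Classical in
/-- The number of the `t < b ^ K`, whose `i`-th digit in base `b` belongs to `A i` for all `i < K`, such
that `M + t` belongs to `T`. -/
noncomputable def count (b K M : ℕ) (A : ℕ → Finset ℕ) (T : Set ℕ) : ℕ :=
  ((range (b ^ K)).filter (fun t => (∀ i < K, t / b ^ i % b ∈ A i) ∧ M + t ∈ T)).card

/-- The number of choices of the digits. -/
noncomputable def choices (K : ℕ) (A : ℕ → Finset ℕ) : ℝ := ∏ i ∈ range K, ((A i).card : ℝ)

/-- `m` has at most `r` prime factors, counted with multiplicity, and all of them are larger than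
`z ^ (1 / r)`. -/
def AlmostPrime (r z m : ℕ) : Prop :=
  (∀ p : ℕ, p.Prime → p ∣ m → z < p ^ r) ∧ m.primeFactorsList.length ≤ r

open Pool.Agent.Y816.PD (WG NA ND ND_sub NA_nonneg)

lemma cop (N m k c : ℕ) (h : N + c = m * k ∨ N = m * k + c) (hc : Nat.Coprime c m) :
    Nat.Coprime N m := by
  by_contra hne
  obtain ⟨p, hp, hpN, hpm⟩ := Nat.Prime.not_coprime_iff_dvd.1 hne
  have h1 : p ∣ m * k := Dvd.dvd.mul_right hpm k
  have h2 : p ∣ c := by
    rcases h with h | h
    · rw [← h] at h1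
      exact (Nat.dvd_add_right hpN).1 h1
    · rw [h] at hpN
      exact (Nat.dvd_add_right h1).1 hpN
  exact (Nat.Prime.not_coprime_iff_dvd.2 ⟨p, hp, h2, hpm⟩) hc

/-- for every admissible pair there is a good remainder -/
lemma exists_good {m n : ℕ} (hm : 1 ≤ m) (h : Admissible m n) : ∃ s, s < m ∧ Good m n s := by
  obtain ⟨hn, hcase⟩ := h
  unfold Good
  have hdm := Nat.div_add_mod (n - 1) m
  have hlt := Nat.mod_lt (n - 1) (show 0 < m by omega)
  generalize hk : (n - 1) / m = k at *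
  generalize ha : (n - 1) % m = a at *
  rcases Nat.even_or_odd m with hme | hmo
  · refine ⟨a, hlt, ?_, ?_⟩
    · exact cop (n - a) m k 1 (Or.inr (by omega)) (Nat.coprime_one_left m)
    · have h1 : n - a = m * k + 1 := by omega
      rw [h1]
      have h2 : Even (m * k) := hme.mul_right k
      obtain ⟨t, ht⟩ := h2
      obtain ⟨s, hs⟩ := hme
      exact ⟨t + s, by omega⟩
  · have h2m : Nat.Coprime 2 m := Nat.coprime_two_left.2 hmo
    obtain ⟨s, hs⟩ := hmo
    rcases Nat.eq_zero_or_pos a with ha0 | ha0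
    · rcases Nat.even_or_odd n with hne | hno
      · obtain ⟨t, ht⟩ := hne
        refine ⟨0, by omega, ?_, ⟨t + s, by omega⟩⟩
        rw [Nat.sub_zero]
        exact cop n m k 1 (Or.inr (by omega)) (Nat.coprime_one_left m)
      · obtain ⟨t, ht⟩ := hno
        have hm5 : 5 ≤ m := by
          rcases hcase with ⟨_, ⟨u, hu⟩⟩ | ⟨h3, h6⟩ | h2 | h4
          · omega
          · exfalso
            apply h6
            unfold Nat.ModEq
            subst h3
            omega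
          · omega
          · omega
        refine ⟨3, by omega, ?_, ⟨t + s - 1, by omega⟩⟩
        exact cop (n - 3) m k 2 (Or.inl (by omega)) h2m
    · rcases Nat.even_or_odd (n - a) with hne | hno
      · obtain ⟨t, ht⟩ := hne
        refine ⟨a, hlt, ?_, ⟨t + s, by omega⟩⟩
        exact cop (n - a) m k 1 (Or.inr (by omega)) (Nat.coprime_one_left m)
      · obtain ⟨t, ht⟩ := hno
        refine ⟨a - 1, by omega, ?_, ⟨t + s + 1, by omega⟩⟩
        exact cop (n - (a - 1)) m k 2 (Or.inr (by omega)) h2m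

/-- the three forms at `q = M + t` -/
def F (m N M : ℕ) : Fin 3 → ℕ → ℤ :=
  ![fun t => ((M + t : ℕ) : ℤ), fun t => ((M + t : ℕ) : ℤ) ^ 2 - 2,
    fun t => (N : ℤ) - m * ((M + t : ℕ) : ℤ)]

open Polynomial in
/-- the three polynomials -/
noncomputable def P (m N : ℕ) (M : ℤ) : Fin 3 → ℤ[X] :=
  ![X + C M, (X + C M) ^ 2 - C 2, C (N : ℤ) - C (m : ℤ) * (X + C M)]

lemma eval_P (m N M : ℕ) (i : Fin 3) (t : ℕ) : (P m N M i).eval (t : ℤ) = F m N M i t := by
  fin_cases i
  · simp [P, F]; ring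
  · simp [P, F]; ring
  · simp [P, F]; exact Or.inl (add_comm _ _)

lemma deg_P (m N : ℕ) (M : ℤ) (i : Fin 3) : (P m N M i).natDegree ≤ ![1, 2, 1] i := by
  fin_cases i
  · change (Polynomial.X + Polynomial.C M : Polynomial ℤ).natDegree ≤ 1
    compute_degree
  · change ((Polynomial.X + Polynomial.C M) ^ 2 - Polynomial.C 2 : Polynomial ℤ).natDegree ≤ 2
    compute_degree
  · change (Polynomial.C (N : ℤ) - Polynomial.C (m : ℤ) * (Polynomial.X + Polynomial.C M) :
      Polynomial ℤ).natDegree ≤ 1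
    compute_degree

lemma prod_F (m N M t : ℕ) : ∏ i, F m N M i t =
    ((M + t : ℕ) : ℤ) * (((M + t : ℕ) : ℤ) ^ 2 - 2) * ((N : ℤ) - m * ((M + t : ℕ) : ℤ)) := by
  rw [Fin.prod_univ_three]
  rfl

/-- no fixed prime divisor -/
lemma adm {m N : ℕ} (hcop : N.Coprime m) (hodd : Odd (N + m)) (M : ℕ) {p : ℕ} (hp : p.Prime) :
    ∃ t : ℕ, ∀ i, ¬ (p : ℤ) ∣ F m N M i t := by
  have hpp : Prime (p : ℤ) := Nat.prime_iff_prime_int.1 hp
  have hp1 : ¬ (p : ℤ) ∣ 1 := fun h => hpp.not_isUnit (isUnit_of_dvd_one h)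
  have h1p : 1 ≤ p := hp.pos
  -- reduction to the residues `1` and `-1`
  have key : ∀ x : ℤ, (∃ t : ℕ, ∃ c : ℤ, ((M + t : ℕ) : ℤ) = x + p * c) → ¬ (p : ℤ) ∣ x →
      ¬ (p : ℤ) ∣ x ^ 2 - 2 → ¬ (p : ℤ) ∣ N - m * x → ∃ t : ℕ, ∀ i, ¬ (p : ℤ) ∣ F m N M i t := by
    rintro x ⟨t, c, hc⟩ h1 h2 h3
    refine ⟨t, fun i => ?_⟩
    fin_cases i
    · change ¬ (p : ℤ) ∣ ((M + t : ℕ) : ℤ)
      rw [hc]
      exact fun h => h1 ((dvd_add_left (dvd_mul_right _ _)).1 h)
    · change ¬ (p : ℤ) ∣ ((M + t : ℕ) : ℤ) ^ 2 - 2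
      rw [hc]
      have e : (x + p * c) ^ 2 - 2 = (x ^ 2 - 2) + p * (2 * x * c + p * c ^ 2) := by ring
      rw [e]
      exact fun h => h2 ((dvd_add_left (dvd_mul_right _ _)).1 h)
    · change ¬ (p : ℤ) ∣ (N : ℤ) - m * ((M + t : ℕ) : ℤ)
      rw [hc]
      have e : (N : ℤ) - m * (x + p * c) = (N - m * x) + p * (-(m * c)) := by ring
      rw [e]
      exact fun h => h3 ((dvd_add_left (dvd_mul_right _ _)).1 h)
  by_cases h1 : (p : ℤ) ∣ (N : ℤ) - m * 1
  · refine key (-1) ⟨(p - 1) + M * (p - 1), M + 1, ?_⟩ ?_ ?_ ?_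
    · push_cast [h1p]
      ring
    · rwa [dvd_neg]
    · norm_num
      exact hp1
    · intro h2
      have e1 : (N : ℤ) - m * (-1) = N + m := by ring
      rw [e1] at h2
      have h3 : (p : ℤ) ∣ 2 * N := by
        have := dvd_add h1 h2
        have e2 : (N : ℤ) - m * 1 + (N + m) = 2 * N := by ring
        rwa [e2] at this
      have h4 : (p : ℤ) ∣ 2 * m := by
        have := dvd_sub h2 h1
        have e2 : (N : ℤ) + m - (N - m * 1) = 2 * m := by ring
        rwa [e2] at this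
      by_cases hp2 : p = 2
      · subst hp2
        have h5 : (2 : ℕ) ∣ N + m := by exact_mod_cast h2
        obtain ⟨t, ht⟩ := hodd
        omega
      · have h6 : ¬ (p : ℤ) ∣ 2 := by
          intro h7
          have h8 : p ∣ 2 := by exact_mod_cast h7
          exact hp2 ((Nat.prime_dvd_prime_iff_eq hp Nat.prime_two).1 h8)
        have h7 : p ∣ N := by exact_mod_cast (hpp.dvd_or_dvd h3).resolve_left h6
        have h8 : p ∣ m := by exact_mod_cast (hpp.dvd_or_dvd h4).resolve_left h6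
        exact (Nat.Prime.not_coprime_iff_dvd.2 ⟨p, hp, h7, h8⟩) hcop
  · refine key 1 ⟨1 + M * (p - 1), M, ?_⟩ hp1 ?_ h1
    · push_cast [h1p]
      ring
    · norm_num
      exact hp1

open Classical in
lemma card_eq (m N M : ℕ) (p : ℕ) :
    ((range p).filter (fun t : ℕ => (p : ℤ) ∣ ∏ i, F m N M i t)).card = nu m N p := by
  unfold nu
  rw [← Pool.Agent.H225.LF.card_shift
    (fun q : ℕ => (p : ℤ) ∣ (q : ℤ) * ((q : ℤ) ^ 2 - 2) * ((N : ℤ) - m * q)) p M (fun q => ?_)]
  · congr 1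
    refine filter_congr fun t _ => ?_
    rw [prod_F]
  · have e : ((q + p : ℕ) : ℤ) * (((q + p : ℕ) : ℤ) ^ 2 - 2) * ((N : ℤ) - m * ((q + p : ℕ) : ℤ)) -
        (q : ℤ) * ((q : ℤ) ^ 2 - 2) * ((N : ℤ) - m * q) =
        p * ((((q : ℤ) + p) ^ 2 - 2) * ((N : ℤ) - m * (q + p)) +
          q * (2 * q + p) * ((N : ℤ) - m * (q + p)) + q * ((q : ℤ) ^ 2 - 2) * (-(m : ℤ))) := by
      push_cast
      ring
    have hd : (p : ℤ) ∣ ((q + p : ℕ) : ℤ) * (((q + p : ℕ) : ℤ) ^ 2 - 2) *
        ((N : ℤ) - m * ((q + p : ℕ) : ℤ)) - (q : ℤ) * ((q : ℤ) ^ 2 - 2) * ((N : ℤ) - m * q) := by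
      rw [e]
      exact dvd_mul_right _ _
    exact (dvd_iff_dvd_of_dvd_sub hd)

lemma WG_eq (m N M x : ℕ) : WG (fun t => ∏ i, F m N M i t) x = V m N x := by
  classical
  unfold WG V
  refine prod_congr rfl fun p _ => ?_
  rw [← card_eq m N M p]

open Classical in
lemma roots_le {m N M : ℕ} (hcop : N.Coprime m) (hodd : Odd (N + m)) {p : ℕ} (hp : p.Prime) :
    ((range p).filter (fun t : ℕ => (p : ℤ) ∣ ∏ i, F m N M i t)).card ≤ 4 := by
  obtain ⟨x, hx⟩ := adm hcop hodd M hp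
  have h1 : (range p).filter (fun t : ℕ => (p : ℤ) ∣ ∏ i, F m N M i t) ⊆
      univ.biUnion (fun i : Fin 3 => (range p).filter (fun t : ℕ => (p : ℤ) ∣ F m N M i t)) := by
    intro y hy
    rw [mem_filter] at hy
    obtain ⟨i, -, hi⟩ := ((Nat.prime_iff_prime_int.1 hp).dvd_finsetProd_iff _).1 hy.2
    exact mem_biUnion.2 ⟨i, mem_univ _, mem_filter.2 ⟨hy.1, hi⟩⟩
  refine (card_le_card h1).trans (card_biUnion_le.trans ?_)
  calc ∑ i : Fin 3, ((range p).filter (fun t : ℕ => (p : ℤ) ∣ F m N M i t)).card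
      ≤ ∑ i : Fin 3, ![1, 2, 1] i := by
        refine sum_le_sum fun i _ => ?_
        have h2 := Pool.Agent.V1153.SX.card_roots_mod (P m N M i) p hp (x : ℤ)
          (by rw [eval_P]; exact hx i)
        refine le_trans ?_ (h2.trans (deg_P m N M i))
        refine card_le_card fun y hy => ?_
        rw [mem_filter] at hy ⊢
        rw [eval_P]
        exact hy
    _ = 4 := by decide

open Classical in
lemma roots_lt {m N M : ℕ} (hcop : N.Coprime m) (hodd : Odd (N + m)) {p : ℕ} (hp : p.Prime) :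
    ((range p).filter (fun t : ℕ => (p : ℤ) ∣ ∏ i, F m N M i t)).card < p := by
  obtain ⟨x, hx⟩ := adm hcop hodd M hp
  have hx' : ∀ i, ¬ (p : ℤ) ∣ F m N M i (x % p) := by
    intro i h
    refine hx i ?_
    have h3 : (p : ℤ) ∣ (P m N M i).eval (x : ℤ) - (P m N M i).eval (((x % p : ℕ) : ℤ)) := by
      refine dvd_trans ?_ (Polynomial.sub_dvd_eval_sub _ _ _)
      rw [Int.natCast_mod]
      exact Int.dvd_self_sub_emod
    rw [eval_P, eval_P] at h3
    have h4 := dvd_add h3 h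
    rwa [sub_add_cancel] at h4
  refine lt_of_lt_of_eq (card_lt_card ?_) (card_range p)
  rw [filter_ssubset]
  refine ⟨x % p, mem_range.2 (Nat.mod_lt _ hp.pos), fun h => ?_⟩
  obtain ⟨i, -, hi⟩ := ((Nat.prime_iff_prime_int.1 hp).dvd_finsetProd_iff _).1 h
  exact hx' i hi

/-- **`q = ⌊(n - p) / m⌋`, `q ^ 2 - 2` and `p`, at `q` with restricted digits.** -/
theorem result (E : ℕ) :
    ∃ δ : ℝ, 0 < δ ∧ ∃ r₀ : ℕ, 2 ≤ r₀ ∧ ∀ r : ℕ, r₀ ≤ r → ∀ b : ℕ, 2 ≤ b →
      ∃ κ C : ℝ, 0 < κ ∧ 0 < C ∧ ∀ᶠ K : ℕ in atTop, ∀ m n M : ℕ, 1 ≤ m → Admissible m n →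
        m * (M + b ^ K) + b ^ K + m ≤ n → n ≤ b ^ (E * K) →
        (∃ s < m, Good m n s) ∧ ∀ s < m, Good m n s →
        ∀ A : ℕ → Finset ℕ, (∀ i < K, A i ⊆ range b) →
        (b : ℝ) ^ K ≤ Real.exp (δ * K) * choices K A →
        κ / (K : ℝ) ^ 4 ≤ V m (n - s) (b ^ K) ∧
        ((∃ e ∈ A 0, (M + e).Coprime b ∧ Int.gcd (((M + e : ℕ) : ℤ) ^ 2 - 2) b = 1 ∧
            (n - s - m * (M + e)).Coprime b) → (∃ e ∈ A (K - 1), e ≠ 0) →
          κ * choices K A * V m (n - s) (b ^ K) ≤ count b K M A {q | ∃ p : ℕ, 0 < p ∧ p < n ∧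
            n = m * q + p + s ∧ q = (n - p) / m ∧ AlmostPrime r (b ^ K) p ∧
            AlmostPrime r (b ^ K) q ∧ AlmostPrime r (b ^ K) (q ^ 2 - 2)}) ∧
        (count b K M A {q | ∃ p : ℕ, n = m * q + p + s ∧ p.Prime ∧ q.Prime ∧ (q ^ 2 - 2).Prime} : ℝ)
          ≤ C * choices K A * V m (n - s) (b ^ K) := by
  classical
  obtain ⟨δ, hδ, r₀, hr₀, h⟩ := Pool.Agent.H225.DG.gen 3 2 (2 * E) (by norm_num) (by norm_num)
  refine ⟨δ, hδ, r₀, hr₀, fun r hr b hb => ?_⟩
  obtain ⟨κ, C, hκ, hC, h1⟩ := h r hr b hb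
  obtain ⟨v, hv, hW⟩ := Pool.Agent.H225.VL.lower 4 b (by norm_num) hb
  refine ⟨min κ v, C, lt_min hκ hv, hC, ?_⟩
  filter_upwards [h1, hW, eventually_ge_atTop 2] with K hK hWK hK2 m n M hm hadm hn hnE
  refine ⟨exists_good hm hadm, fun s hs hgood A hA hprod => ?_⟩
  obtain ⟨hcop, hodd⟩ := hgood
  have hbK : 2 ≤ b ^ K := hb.trans (Nat.le_self_pow (by omega) b)
  have hbK1 : 2 ≤ b ^ (K - 1) := hb.trans (Nat.le_self_pow (by omega) b)
  have hqn : ∀ t < b ^ K, m * (M + t) + b ^ K + s ≤ n := by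
    intro t ht
    have h2 : m * (M + t) ≤ m * (M + b ^ K) := Nat.mul_le_mul_left _ (by omega)
    omega
  have hqle : ∀ t < b ^ K, M + t ≤ n := by
    intro t ht
    have h2 := hqn t ht
    have h3 : M + t ≤ m * (M + t) := Nat.le_mul_of_pos_left _ hm
    omega
  have hpv : ∀ t < b ^ K, ((n - s : ℕ) : ℤ) - m * ((M + t : ℕ) : ℤ) =
      ((n - s - m * (M + t) : ℕ) : ℤ) := by
    intro t ht
    have h2 := hqn t ht
    have h3 : m * (M + t) ≤ n - s := by omega
    rw [Nat.cast_sub h3, Nat.cast_mul]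
  have hsize : ∀ t : ℕ, t < b ^ K → ∀ i, (F m (n - s) M i t).natAbs ≤ b ^ (2 * E * K) := by
    intro t ht i
    have e : b ^ (2 * E * K) = b ^ (E * K) * b ^ (E * K) := by
      rw [← pow_add]
      congr 1
      ring
    have h2 := hqle t ht
    have h5 : 1 ≤ b ^ (E * K) := Nat.one_le_pow _ _ (by omega)
    have h6 : b ^ (E * K) ≤ b ^ (E * K) * b ^ (E * K) := Nat.le_mul_of_pos_right _ h5
    rw [e]
    fin_cases i
    · change ((M + t : ℕ) : ℤ).natAbs ≤ _
      rw [Int.natAbs_natCast]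
      omega
    · change (((M + t : ℕ) : ℤ) ^ 2 - 2).natAbs ≤ _
      have h3 : (M + t) * (M + t) ≤ n * n := Nat.mul_le_mul h2 h2
      have h4 : n * n ≤ b ^ (E * K) * b ^ (E * K) := Nat.mul_le_mul hnE hnE
      have h7 : ((M + t : ℕ) : ℤ) ^ 2 = (((M + t) * (M + t) : ℕ) : ℤ) := by push_cast; ring
      rw [h7]
      have h8 : 2 ≤ b ^ (E * K) := by
        have : b ^ K ≤ n := by
          have := hqn 0 (by omega)
          omega
        omega
      have h9 : 2 ≤ b ^ (E * K) * b ^ (E * K) := h8.trans h6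
      generalize (M + t) * (M + t) = z at *
      omega
    · change (((n - s : ℕ) : ℤ) - m * ((M + t : ℕ) : ℤ)).natAbs ≤ _
      rw [hpv t ht, Int.natAbs_natCast]
      omega
  obtain ⟨h2, h3⟩ := hK (F m (n - s) M) (fun i => ⟨P m (n - s) M i, (deg_P _ _ _ i).trans (by
      fin_cases i <;> decide), fun t => eval_P _ _ _ i t⟩) (fun p hp => adm hcop hodd M hp)
    hsize A hA hprod
  rw [WG_eq] at h2 h3
  have hVlow : v / (K : ℝ) ^ 4 ≤ V m (n - s) (b ^ K) := by
    rw [← WG_eq m (n - s) M]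
    exact hWK _ (fun p hp => by convert roots_le hcop hodd hp (M := M))
      (fun p hp => by convert roots_lt hcop hodd hp (M := M))
  have hNA : 0 ≤ choices K A := NA_nonneg K A
  have hV0 : 0 ≤ V m (n - s) (b ^ K) := le_trans (by positivity) hVlow
  refine ⟨le_trans ?_ hVlow, ?_, ?_⟩
  · exact div_le_div_of_nonneg_right (min_le_right _ _) (by positivity)
  · rintro ⟨e, he, hc1, hc2, hc3⟩ htop
    have heb : e < b ^ K := lt_of_lt_of_le (mem_range.1 (hA 0 (by omega) he))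
      (Nat.le_self_pow (by omega) b)
    refine le_trans (mul_le_mul_of_nonneg_right (mul_le_mul_of_nonneg_right (min_le_left _ _) hNA)
      hV0) ((h2 ⟨e, he, fun i => ?_⟩ htop).trans (Nat.cast_le.2 (ND_sub fun t ht ht1 ht2 =>
        ⟨ht1, ?_⟩)))
    · fin_cases i
      · change ((M + e : ℕ) : ℤ).natAbs.Coprime b
        rw [Int.natAbs_natCast]
        exact hc1
      · exact hc2
      · change (((n - s : ℕ) : ℤ) - m * ((M + e : ℕ) : ℤ)).natAbs.Coprime b
        rw [hpv e heb, Int.natAbs_natCast]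
        exact hc3
    · have hq := hqn t ht
      have g0 := ht2.2 0
      have g1 := ht2.2 1
      have g2 := ht2.2 2
      change AlmostPrime r (b ^ K) ((M + t : ℕ) : ℤ).natAbs at g0
      change AlmostPrime r (b ^ K) (((M + t : ℕ) : ℤ) ^ 2 - 2).natAbs at g1
      change AlmostPrime r (b ^ K) (((n - s : ℕ) : ℤ) - m * ((M + t : ℕ) : ℤ)).natAbs at g2
      rw [Int.natAbs_natCast] at g0
      rw [hpv t ht, Int.natAbs_natCast] at g2
      have e1 : (((M + t : ℕ) : ℤ) ^ 2 - 2).natAbs = (M + t) ^ 2 - 2 := by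
        have h7 : ((M + t : ℕ) : ℤ) ^ 2 = (((M + t) ^ 2 : ℕ) : ℤ) := by push_cast; ring
        have h8 : 2 ≤ M + t := by
          have := ht2.1
          omega
        have h9 : 2 ≤ (M + t) ^ 2 := by nlinarith
        rw [h7]
        generalize (M + t) ^ 2 = z at *
        omega
      rw [e1] at g1
      have hpos : 1 ≤ m * (M + t) := Nat.mul_pos hm (by have := ht2.1; omega)
      refine ⟨n - s - m * (M + t), by omega, by omega, by omega, ?_, g2, g0, g1⟩
      have e2 : n - (n - s - m * (M + t)) = s + m * (M + t) := by omega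
      rw [e2, Nat.add_mul_div_left _ _ hm, Nat.div_eq_of_lt hs, zero_add]
  · refine le_trans (Nat.cast_le.2 ?_) h3
    refine ND_sub fun t ht ht1 ht2 => ⟨ht1, ?_⟩
    obtain ⟨p, hp0, hp1, hp2, hp3⟩ := ht2
    have hq := hqn t ht
    have hpe : p = n - s - m * (M + t) := by omega
    have hpt : t ≤ p := by omega
    have hr2 : 2 ≤ r := hr₀.trans hr
    have hlt : ∀ x : ℕ, x.Prime → t < x ^ 2 → t < x ^ r := fun x hx h8 =>
      h8.trans_le (Nat.pow_le_pow_right hx.pos hr2)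
    intro i
    fin_cases i
    · change ((M + t : ℕ) : ℤ).natAbs.Prime ∧ t < ((M + t : ℕ) : ℤ).natAbs ^ r
      rw [Int.natAbs_natCast]
      refine ⟨hp2, hlt _ hp2 ?_⟩
      have := hp2.two_le
      nlinarith
    · change (((M + t : ℕ) : ℤ) ^ 2 - 2).natAbs.Prime ∧ t < (((M + t : ℕ) : ℤ) ^ 2 - 2).natAbs ^ r
      have h8 := hp2.two_le
      have e1 : (((M + t : ℕ) : ℤ) ^ 2 - 2).natAbs = (M + t) ^ 2 - 2 := by
        have h7 : ((M + t : ℕ) : ℤ) ^ 2 = (((M + t) ^ 2 : ℕ) : ℤ) := by push_cast; ring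
        have h9 : 2 ≤ (M + t) ^ 2 := by nlinarith
        rw [h7]
        generalize (M + t) ^ 2 = z at *
        omega
      rw [e1]
      refine ⟨hp3, hlt _ hp3 ?_⟩
      have h9 : M + t ≤ (M + t) ^ 2 - 2 := by
        have : M + t + 2 ≤ (M + t) ^ 2 := by nlinarith
        omega
      have h10 : ((M + t) ^ 2 - 2) * 2 ≤ ((M + t) ^ 2 - 2) * ((M + t) ^ 2 - 2) :=
        Nat.mul_le_mul_left _ (h8.trans h9)
      rw [sq ((M + t) ^ 2 - 2)]
      omega
    · change (((n - s : ℕ) : ℤ) - m * ((M + t : ℕ) : ℤ)).natAbs.Prime ∧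
        t < (((n - s : ℕ) : ℤ) - m * ((M + t : ℕ) : ℤ)).natAbs ^ r
      rw [hpv t ht, Int.natAbs_natCast, ← hpe]
      refine ⟨hp1, hlt _ hp1 ?_⟩
      have := hp1.two_le
      nlinarith

end Pool.Agent.Results.MP_4011c3_nt.RestrictedDigits
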