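import Pool.Agent.Results.MP_4011c3_nt.AlmostAllAlmostPrime
import Pool.Agent.V11285.W4

/-!
# `n = p + m q + r` with `q ^ 2 - 2` almost prime for ALL `n` in windows around `α v_i`

Let `v_i` grow at least like `exp (i ^ δ)`, for example `v_i = b ^ i`. There is an absolute constant `K` such that for almost
all `α > 0`, for all `m ≥ 1` and `B` and all large `i`: for ALL `n` with `|n - α v_i| ≤ (log v_i) ^ B` for which `(m, n)` is
admissible there is a prime `p < n` such that `q = ⌊(n - p) / m⌋` is prime and `q ^ 2 - 2` has no prime factor `ℓ` with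
`ℓ ^ K ≤ n`.
-/

set_option autoImplicit false

open Filter Topology MeasureTheory

namespace Pool.Agent.Results.MP_4011c3_nt.WindowsOfIntegers

/-- the pair `(m, n)` is admissible -/
def Admissible (m n : ℕ) : Prop :=
  2 * m + 1 < n ∧ ((m = 1 ∧ Even n) ∨ (m = 3 ∧ ¬ n ≡ 1 [MOD 6]) ∨ m = 2 ∨ 4 ≤ m)

/-- there is a prime `p < n` such that `q = ⌊(n - p) / m⌋` is prime, `q ^ 2 - 2` has no prime factor `ℓ` with
`ℓ ^ K ≤ n`, and `q ^ 2 - 2` has fewer than `2 K` prime factors, counted with multiplicity -/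
def Rep (K m n : ℕ) : Prop :=
  ∃ p q : ℕ, p.Prime ∧ p < n ∧ q = (n - p) / m ∧ q.Prime ∧
    (∀ ℓ : ℕ, ℓ.Prime → ℓ ∣ q ^ 2 - 2 → n < ℓ ^ K) ∧ (q ^ 2 - 2).primeFactorsList.length < 2 * K

/-- `v_i` grows at least like `exp (i ^ δ)` for some `δ > 0` -/
def Fast (v : ℕ → ℝ) : Prop := ∃ δ : ℝ, 0 < δ ∧ ∀ᶠ i : ℕ in atTop, (i : ℝ) ^ δ ≤ Real.log (v i)

/-- **All integers in windows.** There is an absolute constant `K ≥ 1` such that for all sequences `v_i ≥ 1` growing at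
least like `exp (i ^ δ)` and almost all `α > 0`, for all `m ≥ 1` and all `B` there is `i₀` such that for all `i ≥ i₀` and ALL
`n ≥ 1` with `|n - α v_i| ≤ (log v_i) ^ B` for which `(m, n)` is admissible there is a prime `p < n` such that
`q = ⌊(n - p) / m⌋` is prime, `q ^ 2 - 2` has no prime factor `ℓ` with `ℓ ^ K ≤ n` and fewer than `2 K` prime factors.
An example is `v_i = b ^ i`, for all `b > 1`. -/
theorem result :
    (∃ K : ℕ, 1 ≤ K ∧ ∀ v : ℕ → ℝ, (∀ i, 1 ≤ v i) → Fast v → ∀ᵐ α : ℝ, 0 < α → ∀ m : ℕ, 1 ≤ m → ∀ B : ℕ,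
      ∃ i₀ : ℕ, ∀ i : ℕ, i₀ ≤ i → ∀ n : ℕ, 1 ≤ n → |(n : ℝ) - α * v i| ≤ Real.log (v i) ^ B →
        Admissible m n → Rep K m n) ∧
    (∀ b : ℝ, 1 < b → Fast (fun i : ℕ => b ^ i)) := by
  classical
  refine ⟨?_, fun b hb => Pool.Agent.V11285.W4.fast_geom b hb⟩
  obtain ⟨K, hK, h⟩ := AlmostAllAlmostPrime.result
  refine ⟨K, hK, fun v hv hf => ?_⟩
  have hf' : Pool.Agent.V11285.W4.Fast v := hf
  have hbad : ∀ m : ℕ, 1 ≤ m → ∀ P : ℕ, ∃ X₀ : ℕ, ∀ X : ℕ, X₀ ≤ X →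
      ({n : ℕ | 1 ≤ n ∧ n ≤ X ∧ (Admissible m n ∧ ¬ Rep K m n)}.ncard : ℝ) ≤ X / Real.log X ^ P := by
    intro m hm P
    obtain ⟨C, hC, h1⟩ := h m hm (P + 1)
    have hlog : Tendsto (fun X : ℕ => Real.log (X : ℝ)) atTop atTop :=
      Real.tendsto_log_atTop.comp tendsto_natCast_atTop_atTop
    obtain ⟨X₁, hX₁⟩ := (hlog.eventually_ge_atTop (max C 1)).exists_forall_of_atTop
    refine ⟨X₁ + 2, fun X hX => ?_⟩
    have h2 := hX₁ X (by omega)
    have hC2 : C ≤ Real.log X := (le_max_left _ _).trans h2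
    have hl1 : 1 ≤ Real.log X := (le_max_right _ _).trans h2
    have hl0 : 0 < Real.log X := by linarith
    have e : {n : ℕ | 1 ≤ n ∧ n ≤ X ∧ (Admissible m n ∧ ¬ Rep K m n)} =
        (((Finset.Icc 1 X).filter (fun n : ℕ => Admissible m n ∧ ¬ Rep K m n) : Finset ℕ) : Set ℕ) := by
      ext n
      simp only [Set.mem_ofPred_eq, Finset.coe_filter, Finset.mem_Icc, and_assoc]
    rw [e, Set.ncard_coe_finset]
    have h3 := h1 X (by omega)
    have h4 : (((Finset.Icc 1 X).filter (fun n : ℕ => Admissible m n ∧ ¬ Rep K m n)).card : ℝ) ≤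
        C * (X / Real.log X ^ (P + 1)) := by
      convert h3 using 4
      exact Iff.rfl
    refine h4.trans ?_
    rw [pow_succ, ← mul_div_assoc, div_le_div_iff₀ (by positivity) (by positivity)]
    have h5 : (0 : ℝ) ≤ X := Nat.cast_nonneg X
    have h6 : (0 : ℝ) ≤ Real.log X ^ P := by positivity
    calc C * X * Real.log X ^ P ≤ Real.log X * X * Real.log X ^ P :=
          mul_le_mul_of_nonneg_right (mul_le_mul_of_nonneg_right hC2 h5) h6
      _ = X * (Real.log X ^ P * Real.log X) := by ring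
  have hall : ∀ᵐ α : ℝ, ∀ m B : ℕ, 1 ≤ m → 0 < α → ∃ i₀ : ℕ, ∀ i : ℕ, i₀ ≤ i → ∀ n : ℕ, 1 ≤ n →
      |(n : ℝ) - α * v i| ≤ (Real.log (v i)) ^ B → ¬ (Admissible m n ∧ ¬ Rep K m n) := by
    rw [ae_all_iff]
    intro m
    rw [ae_all_iff]
    intro B
    by_cases hm : 1 ≤ m
    · filter_upwards [Pool.Agent.V11285.W4.ae_log (fun n => Admissible m n ∧ ¬ Rep K m n) (hbad m hm) hv hf' B]
        with α hα _ hα0
      exact hα hα0
    · exact Eventually.of_forall fun α h1 => absurd h1 hm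
  filter_upwards [hall] with α hα hα0 m hm B
  obtain ⟨i₀, hi₀⟩ := hα m B hm hα0
  refine ⟨i₀, fun i hi n hn hw hadm => ?_⟩
  by_contra hR
  exact hi₀ i hi n hn hw ⟨hadm, hR⟩

end Pool.Agent.Results.MP_4011c3_nt.WindowsOfIntegers
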